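import Pool.Agent.Q100.EffMain

/-!
# MP_89350a: continuous choice of dense linearly independent sequences

The definitions are in `Pool/Agent/Q100/EffDefs.lean`.
-/

set_option autoImplicit false

namespace Pool.Agent.Results.MP_89350a_an.ContinuousChoice

open Q100.Eff

/-- Full positive answer to Q1, for real and complex scalars: there are an admissible Polish
topology on the set of closed subspaces of `C(Δ)` and continuous maps `h i` such that
`(h i X)` is dense in `X` for every `X` and linearly independent if `X` is infinite-dimensional. -/
theorem result (𝕜 : Type) [RCLike 𝕜] : HasContinuousChoice 𝕜 C(Cantor, 𝕜) :=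
  main 𝕜 C(Cantor, 𝕜)

end Pool.Agent.Results.MP_89350a_an.ContinuousChoice
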